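import Pool.Agent.K7.H12.FI.All

/-!
# Infinitely many `F`-irregular oriented graphs for every weakly connected `F`

`Pool.Agent.K7.H15.Irr.Defs` declares the notions used in the statement: oriented graphs, (not
necessarily induced) subgraphs, the `F`-degree of a vertex, `F`-irregular graphs, weakly connected
graphs.
-/

set_option autoImplicit false

namespace Pool.Agent.Results.MP_5b35db_co.AllGraphs

open Pool.Agent.K7.H15.Irr

/-- For every weakly connected oriented graph `F` with at least three vertices there are
`F`-irregular oriented graphs of infinitely many orders. -/
theorem result {X : Type*} [Fintype X] (F : OrientedGraph X) (hF : F.WeaklyConnected)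
    (h3 : 3 ≤ Fintype.card X) :
    {n : ℕ | ∃ G : OrientedGraph (Fin n), Irregular F G}.Infinite :=
  Pool.Agent.K7.H12.FI.all F hF h3

end Pool.Agent.Results.MP_5b35db_co.AllGraphs
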